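import Pool.Agent.H11.EL.Targets

/-!
# MP_0b603e_al: module IT (Itô's theorem)
-/

set_option autoImplicit false

open scoped commutatorElement

namespace Pool.Agent.H3.EL

open Pool.Agent.H11.EL

variable {G : Type} [Group G]

theorem comm_right_of (a b c : G) (h : a * c = c * a) : ⁅a, b * c⁆ = ⁅a, b⁆ := by
  have h' : c * a⁻¹ = a⁻¹ * c := by
    rw [mul_inv_eq_iff_eq_mul, mul_assoc, eq_inv_mul_iff_mul_eq]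
    exact h
  calc ⁅a, b * c⁆ = a * b * (c * a⁻¹) * c⁻¹ * b⁻¹ := by
        rw [commutatorElement_def]; group
    _ = a * b * (a⁻¹ * c) * c⁻¹ * b⁻¹ := by rw [h']
    _ = ⁅a, b⁆ := by rw [commutatorElement_def]; group

theorem comm_left_of (a b c : G) (h : b * c = c * b) : ⁅a * b, c⁆ = ⁅a, c⁆ := by
  calc ⁅a * b, c⁆ = a * (b * c) * b⁻¹ * a⁻¹ * c⁻¹ := by
        rw [commutatorElement_def]; group
    _ = a * (c * b) * b⁻¹ * a⁻¹ * c⁻¹ := by rw [h]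
    _ = ⁅a, c⁆ := by rw [commutatorElement_def]; group

theorem key (A B : Subgroup G)
    (hA : ∀ x ∈ A, ∀ y ∈ A, x * y = y * x) (hB : ∀ x ∈ B, ∀ y ∈ B, x * y = y * x)
    (hAB : ∀ g : G, ∃ a ∈ A, ∃ b ∈ B, g = a * b)
    {a a1 b b1 : G} (ha : a ∈ A) (ha1 : a1 ∈ A) (hb : b ∈ B) (hb1 : b1 ∈ B) :
    (b1 * a1) * ⁅a, b⁆ * (b1 * a1)⁻¹ = (a1 * b1) * ⁅a, b⁆ * (a1 * b1)⁻¹ := by
  obtain ⟨a2', ha2', b2', hb2', e2'⟩ := hAB (a1 * b * a1⁻¹)⁻¹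
  obtain ⟨a3, ha3, b3, hb3, e3⟩ := hAB (b1 * a * b1⁻¹)
  obtain ⟨b2, hb2, a2, ha2, e2⟩ : ∃ b2 ∈ B, ∃ a2 ∈ A, a1 * b * a1⁻¹ = b2 * a2 :=
    ⟨b2'⁻¹, B.inv_mem hb2', a2'⁻¹, A.inv_mem ha2', by
      rw [← mul_inv_rev, ← e2', inv_inv]⟩
  have e1 : a1 * a * a1⁻¹ = a := by
    rw [hA a1 ha1 a ha]; group
  have e4 : b1 * b * b1⁻¹ = b := by
    rw [hB b1 hb1 b hb]; group
  have e5 : b1 * b2 * b1⁻¹ = b2 := by
    rw [hB b1 hb1 b2 hb2]; group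
  have e6 : a1 * a3 * a1⁻¹ = a3 := by
    rw [hA a1 ha1 a3 ha3]; group
  have s1 : a1 * ⁅a, b⁆ * a1⁻¹ = ⁅a, b2⁆ := by
    rw [conjugate_commutatorElement, e1, e2, comm_right_of _ _ _ (hA a ha a2 ha2)]
  have s2 : b1 * ⁅a, b2⁆ * b1⁻¹ = ⁅a3, b2⁆ := by
    rw [conjugate_commutatorElement, e5, e3, comm_left_of _ _ _ (hB b3 hb3 b2 hb2)]
  have s3 : b1 * ⁅a, b⁆ * b1⁻¹ = ⁅a3, b⁆ := by
    rw [conjugate_commutatorElement, e4, e3, comm_left_of _ _ _ (hB b3 hb3 b hb)]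
  have s4 : a1 * ⁅a3, b⁆ * a1⁻¹ = ⁅a3, b2⁆ := by
    rw [conjugate_commutatorElement, e6, e2, comm_right_of _ _ _ (hA a3 ha3 a2 ha2)]
  calc (b1 * a1) * ⁅a, b⁆ * (b1 * a1)⁻¹ = b1 * (a1 * ⁅a, b⁆ * a1⁻¹) * b1⁻¹ := by group
    _ = ⁅a3, b2⁆ := by rw [s1, s2]
    _ = a1 * (b1 * ⁅a, b⁆ * b1⁻¹) * a1⁻¹ := by rw [s3, s4]
    _ = (a1 * b1) * ⁅a, b⁆ * (a1 * b1)⁻¹ := by group

theorem key2 (A B : Subgroup G)
    (hA : ∀ x ∈ A, ∀ y ∈ A, x * y = y * x) (hB : ∀ x ∈ B, ∀ y ∈ B, x * y = y * x)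
    (hAB : ∀ g : G, ∃ a ∈ A, ∃ b ∈ B, g = a * b)
    {a a1 b b1 : G} (ha : a ∈ A) (ha1 : a1 ∈ A) (hb : b ∈ B) (hb1 : b1 ∈ B) :
    ⁅a1, b1⁆ * ⁅a, b⁆ = ⁅a, b⁆ * ⁅a1, b1⁆ := by
  have h := key A B hA hB hAB ha (A.inv_mem ha1) hb (B.inv_mem hb1)
  have h2 : ⁅a, b⁆ * ((b1⁻¹ * a1⁻¹)⁻¹ * (a1⁻¹ * b1⁻¹)) =
      ((b1⁻¹ * a1⁻¹)⁻¹ * (a1⁻¹ * b1⁻¹)) * ⁅a, b⁆ := by
    calc ⁅a, b⁆ * ((b1⁻¹ * a1⁻¹)⁻¹ * (a1⁻¹ * b1⁻¹))
        = (b1⁻¹ * a1⁻¹)⁻¹ * ((b1⁻¹ * a1⁻¹) * ⁅a, b⁆ * (b1⁻¹ * a1⁻¹)⁻¹) * (a1⁻¹ * b1⁻¹) := by group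
      _ = (b1⁻¹ * a1⁻¹)⁻¹ * ((a1⁻¹ * b1⁻¹) * ⁅a, b⁆ * (a1⁻¹ * b1⁻¹)⁻¹) * (a1⁻¹ * b1⁻¹) := by
          rw [h]
      _ = _ := by group
  have h3 : (b1⁻¹ * a1⁻¹)⁻¹ * (a1⁻¹ * b1⁻¹) = ⁅a1, b1⁆ := by
    rw [commutatorElement_def]; group
  rw [h3] at h2
  exact h2.symm

theorem pf_it : T_IT := by
  intro G _ A B hA hB hAB
  have hS : ⁅A, B⁆ ≤ Subgroup.centralizer (⁅A, B⁆ : Subgroup G) := by
    have h1 : ∀ a ∈ A, ∀ b ∈ B, ⁅A, B⁆ ≤ Subgroup.centralizer ({⁅a, b⁆} : Set G) := by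
      intro a ha b hb
      rw [Subgroup.commutator_le]
      intro a1 ha1 b1 hb1
      rw [Subgroup.mem_centralizer_iff]
      intro x hx
      rw [Set.mem_singleton_iff] at hx
      rw [hx]
      exact (key2 A B hA hB hAB ha ha1 hb hb1).symm
    rw [Subgroup.commutator_le]
    intro a ha b hb
    rw [Subgroup.mem_centralizer_iff]
    intro k hk
    have h2 := h1 a ha b hb hk
    rw [Subgroup.mem_centralizer_iff] at h2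
    exact (h2 _ rfl).symm
  have nA : ∀ x ∈ A, ∀ k ∈ ⁅A, B⁆, x * k * x⁻¹ ∈ ⁅A, B⁆ := by
    intro x hx
    have : ⁅A, B⁆ ≤ (⁅A, B⁆).comap (MulAut.conj x).toMonoidHom := by
      rw [Subgroup.commutator_le]
      intro a ha b hb
      rw [Subgroup.mem_comap]
      change x * ⁅a, b⁆ * x⁻¹ ∈ ⁅A, B⁆
      have e : x * ⁅a, b⁆ * x⁻¹ = ⁅x * a, b⁆ * ⁅x, b⁆⁻¹ := by
        simp only [commutatorElement_def]; group
      rw [e]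
      exact mul_mem (Subgroup.commutator_mem_commutator (mul_mem hx ha) hb)
        (inv_mem (Subgroup.commutator_mem_commutator hx hb))
    intro k hk
    exact this hk
  have nB : ∀ x ∈ B, ∀ k ∈ ⁅A, B⁆, x * k * x⁻¹ ∈ ⁅A, B⁆ := by
    intro x hx
    have : ⁅A, B⁆ ≤ (⁅A, B⁆).comap (MulAut.conj x).toMonoidHom := by
      rw [Subgroup.commutator_le]
      intro a ha b hb
      rw [Subgroup.mem_comap]
      change x * ⁅a, b⁆ * x⁻¹ ∈ ⁅A, B⁆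
      have e : x * ⁅a, b⁆ * x⁻¹ = ⁅a, x⁆⁻¹ * ⁅a, x * b⁆ := by
        simp only [commutatorElement_def]; group
      rw [e]
      exact mul_mem (inv_mem (Subgroup.commutator_mem_commutator ha hx))
        (Subgroup.commutator_mem_commutator ha (mul_mem hx hb))
    intro k hk
    exact this hk
  have hc : commutator G ≤ ⁅A, B⁆ := by
    rw [commutator_def, Subgroup.commutator_le]
    intro g _ g' _
    obtain ⟨a, ha, b, hb, rfl⟩ := hAB g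
    obtain ⟨a', ha', b', hb', rfl⟩ := hAB g'
    have e : ⁅a * b, a' * b'⁆ =
        (a * (⁅a', b⁆⁻¹ * (a' * ⁅b, b'⁆ * a'⁻¹)) * a⁻¹) * (⁅a, a'⁆ * (a' * ⁅a, b'⁆ * a'⁻¹)) := by
      simp only [commutatorElement_def]; group
    have e1 : ⁅b, b'⁆ = 1 := commutatorElement_eq_one_iff_mul_comm.2 (hB b hb b' hb')
    have e2 : ⁅a, a'⁆ = 1 := commutatorElement_eq_one_iff_mul_comm.2 (hA a ha a' ha')
    rw [e, e1, e2, mul_one, mul_inv_cancel, mul_one, one_mul]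
    refine mul_mem (nA a ha _ (inv_mem (Subgroup.commutator_mem_commutator ha' hb)))
      (nA a' ha' _ (Subgroup.commutator_mem_commutator ha hb'))
  have h1 : derivedSeries G 1 ≤ ⁅A, B⁆ := hc
  rw [eq_bot_iff]
  calc derivedSeries G 2 = ⁅derivedSeries G 1, derivedSeries G 1⁆ := rfl
    _ ≤ ⁅⁅A, B⁆, ⁅A, B⁆⁆ := Subgroup.commutator_mono h1 h1
    _ ≤ ⊥ := (Subgroup.commutator_eq_bot_iff_le_centralizer.2 hS).le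

end Pool.Agent.H3.EL
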