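import Pool.Agent.H11.EL.Targets

/-!
# MP_0b603e_al: module NI (commutators in nilpotent groups)
-/

set_option autoImplicit false

open scoped commutatorElement

namespace Pool.Agent.H3.EL

open Pool.Agent.H11.EL

theorem lift_map {H K : Type} [Group H] [Group K] (φ : H →* K) (a h : H)
    (σ : FreeGroup (Fin 2)) :
    φ (FreeGroup.lift ![a, h] σ) = FreeGroup.lift ![φ a, φ h] σ := by
  have : φ.comp (FreeGroup.lift ![a, h]) = FreeGroup.lift ![φ a, φ h] := by
    ext i
    fin_cases i <;> simp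
  rw [← this]; rfl

/-- the value of the word -/
def W {H : Type} [Group H] (σ : FreeGroup (Fin 2)) (a h : H) : H :=
  FreeGroup.lift ![a, h] σ * ⁅a, h⁆

theorem W_map {H K : Type} [Group H] [Group K] (φ : H →* K) (a h : H)
    (σ : FreeGroup (Fin 2)) : φ (W σ a h) = W σ (φ a) (φ h) := by
  unfold W
  rw [map_mul, lift_map, map_commutatorElement]

theorem lift_mem {H : Type} [Group H] (σ : FreeGroup (Fin 2))
    (hσ : σ ∈ derivedSeries (FreeGroup (Fin 2)) 2) (f : Fin 2 → H) :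
    FreeGroup.lift f σ ∈ (⊤ : Subgroup H).lowerCentralSeries 1 := by
  have h1 : FreeGroup.lift f σ ∈ derivedSeries H 2 :=
    map_derivedSeries_le_derivedSeries (FreeGroup.lift f) 2 (Subgroup.mem_map_of_mem _ hσ)
  exact derivedSeries_antitone H (by norm_num : (1 : ℕ) ≤ 2) h1

theorem gen_case (hNJ : T_NJ) (hNK : T_NK) (σ : FreeGroup (Fin 2))
    (hσ : σ ∈ derivedSeries (FreeGroup (Fin 2)) 2) : ∀ n : ℕ, ∀ (H : Type) [Group H] (a b : H),
      Subgroup.closure ({a, b} : Set H) = ⊤ → (⊤ : Subgroup H).lowerCentralSeries (n + 1) = ⊥ →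
      ∀ g ∈ (⊤ : Subgroup H).lowerCentralSeries 1, ∃ h k : H, g = W σ a h * W σ b k := by
  intro n
  induction n with
  | zero =>
    intro H _ a b _ hbot g hg
    have hbot' : (⊤ : Subgroup H).lowerCentralSeries 1 = ⊥ := hbot
    rw [hbot', Subgroup.mem_bot] at hg
    have h1 : ∀ x : H, W σ x 1 = 1 := by
      intro x
      have h2 := lift_mem σ hσ ![x, (1 : H)]
      rw [hbot', Subgroup.mem_bot] at h2
      unfold W
      rw [h2, one_mul, commutatorElement_one_right]
    exact ⟨1, 1, by rw [hg, h1, h1, one_mul]⟩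
  | succ n ih =>
    intro H _ a b hab hbot g hg
    set Z : Subgroup H := (⊤ : Subgroup H).lowerCentralSeries (n + 1) with hZ
    have hZn : Z.Normal := Subgroup.lowerCentralSeries_normal ⊤ (n + 1)
    have hsurj : Function.Surjective (QuotientGroup.mk' Z) := QuotientGroup.mk'_surjective Z
    have hlcs : ∀ m : ℕ, (⊤ : Subgroup (H ⧸ Z)).lowerCentralSeries m =
        ((⊤ : Subgroup H).lowerCentralSeries m).map (QuotientGroup.mk' Z) := by
      intro m
      rw [Subgroup.map_lowerCentralSeries, Subgroup.map_top_of_surjective _ hsurj]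
    have hq1 : Subgroup.closure ({QuotientGroup.mk' Z a, QuotientGroup.mk' Z b} : Set (H ⧸ Z)) =
        ⊤ := by
      rw [← Set.image_pair, ← MonoidHom.map_closure, hab, Subgroup.map_top_of_surjective _ hsurj]
    have hq2 : (⊤ : Subgroup (H ⧸ Z)).lowerCentralSeries (n + 1) = ⊥ := by
      rw [hlcs, ← hZ]
      exact QuotientGroup.map_mk'_self Z
    have hg' : QuotientGroup.mk' Z g ∈ (⊤ : Subgroup (H ⧸ Z)).lowerCentralSeries 1 := by
      rw [hlcs]
      exact Subgroup.mem_map_of_mem _ hg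
    obtain ⟨h', k', e⟩ := ih (H ⧸ Z) _ _ hq1 hq2 _ hg'
    obtain ⟨h, rfl⟩ := hsurj h'
    obtain ⟨k, rfl⟩ := hsurj k'
    rw [← W_map, ← W_map, ← map_mul] at e
    have hz : (W σ a h * W σ b k)⁻¹ * g ∈ Z := by
      rw [← QuotientGroup.eq]
      exact e.symm
    obtain ⟨u, hu, v, hv, ez⟩ := hNJ H a b hab n hbot _ hz
    have hcen : ∀ x ∈ Z, ∀ y : H, x * y = y * x := by
      intro x hx y
      have h1 : ⁅x, y⁆ ∈ (⊤ : Subgroup H).lowerCentralSeries (n + 1 + 1) :=
        Subgroup.commutator_mem_commutator hx (Subgroup.mem_top y)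
      rw [hbot, Subgroup.mem_bot] at h1
      exact commutatorElement_eq_one_iff_mul_comm.1 h1
    have hcu : ∀ (x y : H), y ∈ (⊤ : Subgroup H).lowerCentralSeries n → ⁅x, y⁆ ∈ Z := by
      intro x y hy
      have h1 : ⁅y, x⁆ ∈ Z := Subgroup.commutator_mem_commutator hy (Subgroup.mem_top x)
      have h2 := Z.inv_mem h1
      rwa [commutatorElement_inv] at h2
    have hW : ∀ (x y z : H), z ∈ (⊤ : Subgroup H).lowerCentralSeries n →
        W σ x (y * z) = W σ x y * ⁅x, z⁆ := by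
      intro x y z hz
      unfold W
      rw [hNK σ hσ H n hbot x y z hz]
      have e1 : ⁅x, y * z⁆ = ⁅x, y⁆ * (y * ⁅x, z⁆ * y⁻¹) := by
        simp only [commutatorElement_def]; group
      have e2 : y * ⁅x, z⁆ * y⁻¹ = ⁅x, z⁆ := by
        rw [← hcen _ (hcu x z hz) y, mul_inv_cancel_right]
      rw [e1, e2, mul_assoc]
    refine ⟨h * u, k * v, ?_⟩
    rw [hW a h u hu, hW b k v hv]
    calc g = W σ a h * W σ b k * ((W σ a h * W σ b k)⁻¹ * g) := by group
      _ = W σ a h * (W σ b k * ⁅a, u⁆) * ⁅b, v⁆ := by rw [ez]; group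
      _ = W σ a h * (⁅a, u⁆ * W σ b k) * ⁅b, v⁆ := by rw [hcen _ (hcu a u hu)]
      _ = W σ a h * ⁅a, u⁆ * (W σ b k * ⁅b, v⁆) := by group

theorem pf_ni : T_NJ → T_NK → T_NI := by
  intro hNJ hNK σ hσ H _ hH a b
  set K : Subgroup H := Subgroup.closure ({a, b} : Set H) with hK
  have haK : a ∈ K := Subgroup.subset_closure (by simp)
  have hbK : b ∈ K := Subgroup.subset_closure (by simp)
  have hKn : Group.IsNilpotent K := inferInstance
  obtain ⟨n, hn⟩ := Subgroup.nilpotent_iff_lowerCentralSeries.1 hKn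
  have hn1 : (⊤ : Subgroup K).lowerCentralSeries (n + 1) = ⊥ := by
    rw [eq_bot_iff, ← hn]
    exact Subgroup.lowerCentralSeries_antitone ⊤ (Nat.le_succ n)
  have hcl : Subgroup.closure ({(⟨a, haK⟩ : K), (⟨b, hbK⟩ : K)} : Set K) = ⊤ := by
    apply Subgroup.map_injective K.subtype_injective
    rw [MonoidHom.map_closure, Set.image_pair, ← MonoidHom.range_eq_map, Subgroup.range_subtype]
    rfl
  obtain ⟨h, k, e⟩ := gen_case hNJ hNK σ hσ n K ⟨a, haK⟩ ⟨b, hbK⟩ hcl hn1
    ⁅(⟨a, haK⟩ : K), (⟨b, hbK⟩ : K)⁆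
    (Subgroup.commutator_mem_commutator (Subgroup.mem_top _) (Subgroup.mem_top _))
  have e' := congrArg K.subtype e
  rw [map_commutatorElement, map_mul, W_map, W_map] at e'
  exact ⟨(h : H), (k : H), e'⟩

end Pool.Agent.H3.EL
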