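import Pool.Agent.H11.EL.Targets2

/-!
# MP_0b603e_al: module VD (commutator width of abelian-by-bounded groups)
-/

set_option autoImplicit false

open scoped commutatorElement

namespace Pool.Agent.H3.EL

open Pool.Agent.H11.EL

theorem cp_add {G : Type} [Group G] (d : ℕ) (f g : ℕ → G) (n : ℕ) :
    cp (d + n) f g = cp d f g * cp n (fun i => f (d + i)) (fun i => g (d + i)) := by
  induction n with
  | zero => simp
  | succ n ih => rw [← Nat.add_assoc, cp_succ, ih, cp_succ, mul_assoc]

theorem pf_vd : T_VE → T_VF → T_VD := by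
  intro hVE hVF d m
  obtain ⟨n1, hn1⟩ := hVF m
  refine ⟨d + n1, ?_⟩
  intro G _ _ A hA hAab hidx s hs g hg
  have hR : (⁅A, (⊤ : Subgroup G)⁆).Normal := Subgroup.commutator_normal A ⊤
  set R : Subgroup G := ⁅A, (⊤ : Subgroup G)⁆ with hRdef
  have hsurj : Function.Surjective (QuotientGroup.mk' R) := QuotientGroup.mk'_surjective R
  have hcen : A.map (QuotientGroup.mk' R) ≤ Subgroup.center (G ⧸ R) := by
    rintro _ ⟨a, ha, rfl⟩
    rw [Subgroup.mem_center_iff]
    intro e
    obtain ⟨x, rfl⟩ := hsurj e
    have h1 : ⁅x, a⁆ ∈ R := by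
      have h2 : ⁅a, x⁆ ∈ R := Subgroup.commutator_mem_commutator ha (Subgroup.mem_top x)
      have h3 := R.inv_mem h2
      rwa [commutatorElement_inv] at h3
    have h4 : ⁅QuotientGroup.mk' R x, QuotientGroup.mk' R a⁆ = 1 := by
      rw [← map_commutatorElement]
      exact (QuotientGroup.eq_one_iff _).2 h1
    exact commutatorElement_eq_one_iff_mul_comm.1 h4
  have hidx' : (Subgroup.center (G ⧸ R)).index ≤ m := by
    have h1 : (Subgroup.center (G ⧸ R)).index ≤ (A.map (QuotientGroup.mk' R)).index :=
      Subgroup.index_antitone hcen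
    have h2 : (A.map (QuotientGroup.mk' R)).index ∣ A.index := Subgroup.index_map_dvd A hsurj
    have h3 : 0 < A.index := Nat.pos_of_ne_zero Subgroup.index_ne_zero_of_finite
    exact (h1.trans (Nat.le_of_dvd h3 h2)).trans hidx
  have hgE : QuotientGroup.mk' R g ∈ commutator (G ⧸ R) := by
    have h1 : QuotientGroup.mk' R g ∈ (commutator G).map (QuotientGroup.mk' R) :=
      Subgroup.mem_map_of_mem _ hg
    rw [commutator_def, Subgroup.map_commutator] at h1
    rw [commutator_def]
    exact Subgroup.commutator_mono le_top le_top h1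
  obtain ⟨a', b', e⟩ := hn1 (G ⧸ R) hidx' _ hgE
  choose a ha using fun i => hsurj (a' i)
  choose b hb using fun i => hsurj (b' i)
  have h1 : QuotientGroup.mk' R (cp n1 a b) = QuotientGroup.mk' R g := by
    rw [cp_map, ← e]
    exact cp_congr (fun i _ => ha i) (fun i _ => hb i)
  have h2 : g * (cp n1 a b)⁻¹ ∈ R := by
    have h3 : (QuotientGroup.mk' R) (g * (cp n1 a b)⁻¹) = 1 := by
      rw [map_mul, map_inv, h1, mul_inv_cancel]
    exact (QuotientGroup.eq_one_iff _).1 h3
  have hcl : Subgroup.closure {x : G | ∃ i < d, x = sq d 1 s i} = ⊤ := by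
    rw [← hs]
    congr 1
    ext x
    constructor
    · rintro ⟨i, hi, rfl⟩
      exact ⟨⟨i, hi⟩, (sq_lt 1 s hi).symm⟩
    · rintro ⟨i, rfl⟩
      exact ⟨i.1, i.2, by rw [sq_lt 1 s i.2]⟩
  obtain ⟨aa, _, haa⟩ := hVE G A hA hAab d (sq d 1 s) hcl _ h2
  refine ⟨fun i => if i < d then aa i else a (i - d),
    fun i => if i < d then sq d 1 s i else b (i - d), ?_⟩
  rw [cp_add]
  have h5 : cp d (fun i => if i < d then aa i else a (i - d))
      (fun i => if i < d then sq d 1 s i else b (i - d)) = g * (cp n1 a b)⁻¹ := by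
    rw [← haa]
    exact cp_congr (fun i hi => if_pos hi) (fun i hi => if_pos hi)
  have h6 : cp n1 (fun i => (fun i => if i < d then aa i else a (i - d)) (d + i))
      (fun i => (fun i => if i < d then sq d 1 s i else b (i - d)) (d + i)) = cp n1 a b := by
    apply cp_congr
    · intro i _
      change (if d + i < d then aa (d + i) else a (d + i - d)) = a i
      rw [if_neg (by omega), Nat.add_sub_cancel_left]
    · intro i _
      change (if d + i < d then sq d 1 s (d + i) else b (d + i - d)) = b i
      rw [if_neg (by omega), Nat.add_sub_cancel_left]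
  rw [h5, h6, inv_mul_cancel_right]

end Pool.Agent.H3.EL
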